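import Mathlib

set_option autoImplicit false

/-!
# MP_698530_nt: a divisibility for products of central binomial coefficients (Q1, proof)

`(2bn+1)(2bn+3) C(2bn,bn)` divides `3(a-b)(3a-b) C(2an,an) C(an,bn)` for all `a > b ≥ 1`, `n ≥ 1`.

Method. Put `N = bn`, `A = an`. By Legendre's formula it suffices to show for every odd modulus `m`
(a power of a prime) the inequality
`[m ∣ 2N+1] + [m ∣ 2N+3] + ⌊2N/m⌋ + ⌊A/m⌋ + ⌊(A-N)/m⌋ ≤ [m ∣ 3(a-b)] + [m ∣ 3a-b] + ⌊2A/m⌋ + ⌊N/m⌋`
and for `m` even the same without the four indicators. If `m ∣ 2N+1` (`m ∣ 2N+3`), the floor functions alone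
satisfy it unless `A ≡ N` (`A ≡ N` or `A ≡ N+1`) modulo `m`, and then `m ∣ a - b` (`m ∣ 3(a-b)` or
`m ∣ 3a-b`).
-/

namespace Pool.Agent.Q281.Known.CentralBinomials

open Finset

theorem two_div {m : ℕ} (hm : 0 < m) (N : ℕ) :
    2 * N / m = 2 * (N / m) + if m ≤ 2 * (N % m) then 1 else 0 := by
  have h1 := Nat.div_add_mod N m
  have h2 := Nat.mod_lt N hm
  obtain ⟨u, hu⟩ : ∃ u, N / m = u := ⟨_, rfl⟩
  obtain ⟨y, hy⟩ : ∃ y, N % m = y := ⟨_, rfl⟩
  rw [hu, hy] at h1
  rw [hy] at h2
  rw [hu, hy]
  have e1 : 2 * u * m = 2 * (m * u) := by ring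
  have e2 : (2 * u + 1) * m = 2 * (m * u) + m := by ring
  have e3 : (2 * u + 1 + 1) * m = 2 * (m * u) + 2 * m := by ring
  split_ifs with h
  · refine Nat.div_eq_of_lt_le ?_ ?_
    · rw [e2]; omega
    · rw [e3]; omega
  · refine Nat.div_eq_of_lt_le ?_ ?_
    · rw [add_zero, e1]; omega
    · rw [add_zero, e2]; omega

theorem sub_div' {m : ℕ} (hm : 0 < m) {N A : ℕ} (hNA : N ≤ A) :
    (A - N) / m + N / m + (if A % m < N % m then 1 else 0) = A / m := by
  have h1 := Nat.div_add_mod N m
  have h2 := Nat.mod_lt N hm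
  have g1 := Nat.div_add_mod A m
  have g2 := Nat.mod_lt A hm
  obtain ⟨u, hu⟩ : ∃ u, N / m = u := ⟨_, rfl⟩
  obtain ⟨y, hy⟩ : ∃ y, N % m = y := ⟨_, rfl⟩
  obtain ⟨v, hv⟩ : ∃ v, A / m = v := ⟨_, rfl⟩
  obtain ⟨x, hx⟩ : ∃ x, A % m = x := ⟨_, rfl⟩
  rw [hu, hy] at h1
  rw [hy] at h2
  rw [hv, hx] at g1
  rw [hx] at g2
  rw [hu, hy, hv, hx]
  have huv : u ≤ v := by
    rw [← hu, ← hv]
    exact Nat.div_le_div_right hNA
  obtain ⟨t, rfl⟩ : ∃ t, v = u + t := ⟨v - u, by omega⟩
  rw [mul_add] at g1
  split_ifs with h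
  · have ht : 0 < t := by
      rcases Nat.eq_zero_or_pos t with h0 | h0
      · rw [h0, mul_zero] at g1
        omega
      · exact h0
    obtain ⟨s, rfl⟩ : ∃ s, t = s + 1 := ⟨t - 1, by omega⟩
    have e1 : (A - N) / m = s := by
      refine Nat.div_eq_of_lt_le ?_ ?_
      · have : m * (s + 1) = s * m + m := by ring
        rw [this] at g1
        omega
      · have : m * (s + 1) = (s + 1) * m := by ring
        rw [this] at g1
        omega
    rw [e1]
    ring
  · have e1 : (A - N) / m = t := by
      refine Nat.div_eq_of_lt_le ?_ ?_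
      · have : m * t = t * m := by ring
        rw [this] at g1
        omega
      · have : (t + 1) * m = m * t + m := by ring
        rw [this]
        omega
    rw [e1]
    ring

/-- The floor inequality without indicators. -/
theorem floor_zero {m : ℕ} (hm : 0 < m) {N A : ℕ} (hNA : N ≤ A) :
    2 * N / m + A / m + (A - N) / m ≤ 2 * A / m + N / m := by
  have h1 := two_div hm N
  have h2 := two_div hm A
  have h3 := sub_div' hm hNA
  have g1 := Nat.mod_lt N hm
  have g2 := Nat.mod_lt A hm
  split_ifs at h1 h2 h3 <;> omega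

/-- The floor inequality with one unit to spare. -/
theorem floor_one {m : ℕ} (hm : 0 < m) {N A : ℕ} (hNA : N ≤ A) (hN : 2 * (N % m) < m)
    (h : A % m < N % m ∨ m ≤ 2 * (A % m)) :
    1 + (2 * N / m + A / m + (A - N) / m) ≤ 2 * A / m + N / m := by
  have h1 := two_div hm N
  have h2 := two_div hm A
  have h3 := sub_div' hm hNA
  have g1 := Nat.mod_lt N hm
  have g2 := Nat.mod_lt A hm
  split_ifs at h1 h2 h3 <;> omega

theorem mod_one {m N : ℕ} (hm : 2 ≤ m) (h : m ∣ 2 * N + 1) : 2 * (N % m) + 1 = m := by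
  have h1 := Nat.div_add_mod N m
  have h2 := Nat.mod_lt N (show 0 < m by omega)
  obtain ⟨u, hu⟩ : ∃ u, N / m = u := ⟨_, rfl⟩
  obtain ⟨y, hy⟩ : ∃ y, N % m = y := ⟨_, rfl⟩
  rw [hu, hy] at h1
  rw [hy] at h2
  rw [hy]
  have h3 : m ∣ 2 * y + 1 := by
    have e : 2 * N + 1 = m * (2 * u) + (2 * y + 1) := by rw [← h1]; ring
    rw [e] at h
    exact (Nat.dvd_add_right (dvd_mul_right _ _)).1 h
  obtain ⟨c, hc⟩ := h3
  have hc2 : c < 2 := by
    by_contra h0
    have : m * 2 ≤ m * c := Nat.mul_le_mul_left m (by omega)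
    omega
  interval_cases c <;> omega

theorem mod_three {m N : ℕ} (hm : 2 ≤ m) (h : m ∣ 2 * N + 3) : 2 * (N % m) + 3 = m := by
  have h1 := Nat.div_add_mod N m
  have h2 := Nat.mod_lt N (show 0 < m by omega)
  obtain ⟨u, hu⟩ : ∃ u, N / m = u := ⟨_, rfl⟩
  obtain ⟨y, hy⟩ : ∃ y, N % m = y := ⟨_, rfl⟩
  rw [hu, hy] at h1
  rw [hy] at h2
  rw [hy]
  have h3 : m ∣ 2 * y + 3 := by
    have e : 2 * N + 3 = m * (2 * u) + (2 * y + 3) := by rw [← h1]; ring
    rw [e] at h
    exact (Nat.dvd_add_right (dvd_mul_right _ _)).1 h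
  obtain ⟨c, hc⟩ := h3
  have hc2 : c < 3 := by
    by_contra h0
    have : m * 3 ≤ m * c := Nat.mul_le_mul_left m (by omega)
    omega
  interval_cases c <;> omega

theorem mod_eq_dvd {m a b n : ℕ} (hab : b ≤ a) (h : a * n % m = b * n % m) :
    m ∣ (a - b) * n := by
  have h1 : b * n ≡ a * n [MOD m] := h.symm
  have h2 := (Nat.modEq_iff_dvd' (Nat.mul_le_mul_right n hab)).1 h1
  rwa [Nat.sub_mul]

/-- The inequality for one modulus. -/
theorem key {a b n m : ℕ} (hab : b < a) (hm : 2 ≤ m) :
    ((if m ∣ 2 * (b * n) + 1 then 1 else 0) + (if m ∣ 2 * (b * n) + 3 then 1 else 0)) +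
      (2 * (b * n) / m + (a * n) / m + (a * n - b * n) / m) ≤
    ((if m ∣ 3 * (a - b) then 1 else 0) + (if m ∣ 3 * a - b then 1 else 0)) +
      (2 * (a * n) / m + (b * n) / m) := by
  have hm0 : 0 < m := by omega
  have hNA : b * n ≤ a * n := Nat.mul_le_mul_right n hab.le
  have f0 := floor_zero hm0 hNA
  by_cases c1 : m ∣ 2 * (b * n) + 1
  · have hy := mod_one hm c1
    have c2 : ¬ m ∣ 2 * (b * n) + 3 := by
      intro c2
      have hy2 := mod_three hm c2
      omega
    rw [if_pos c1, if_neg c2]
    by_cases h : a * n % m < b * n % m ∨ m ≤ 2 * (a * n % m)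
    · have := floor_one hm0 hNA (by omega) h
      omega
    · have hx : a * n % m = b * n % m := by omega
      have hd := mod_eq_dvd hab.le hx
      have hco : Nat.Coprime m n := by
        have : Nat.Coprime n (2 * (b * n) + 1) := by
          have e : 2 * (b * n) + 1 = 1 + 2 * b * n := by ring
          rw [e]
          simp
        exact (this.coprime_dvd_right c1).symm
      have hd2 : m ∣ a - b := hco.dvd_of_dvd_mul_right hd
      rw [if_pos (hd2.mul_left 3)]
      omega
  · rw [if_neg c1]
    by_cases c2 : m ∣ 2 * (b * n) + 3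
    · have hy := mod_three hm c2
      rw [if_pos c2]
      by_cases h : a * n % m < b * n % m ∨ m ≤ 2 * (a * n % m)
      · have := floor_one hm0 hNA (by omega) h
        omega
      · have hx : a * n % m = b * n % m ∨ a * n % m = b * n % m + 1 := by omega
        rcases hx with hx | hx
        · have hd := mod_eq_dvd hab.le hx
          have hg : Nat.gcd m n ∣ 3 := by
            have h1 : Nat.gcd m n ∣ 2 * (b * n) + 3 := (Nat.gcd_dvd_left m n).trans c2
            have h2 : Nat.gcd m n ∣ 2 * (b * n) :=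
              ((Nat.gcd_dvd_right m n).mul_left b).mul_left 2
            exact (Nat.dvd_add_right h2).1 h1
          have hd2 : m ∣ 3 * (a - b) := by
            have h1 : m ∣ Nat.gcd ((a - b) * m) ((a - b) * n) :=
              Nat.dvd_gcd (dvd_mul_left _ _) hd
            rw [Nat.gcd_mul_left] at h1
            refine h1.trans ?_
            rw [mul_comm 3]
            exact Nat.mul_dvd_mul_left _ hg
          rw [if_pos hd2]
          omega
        · -- `A ≡ N + 1`
          have hodd : Nat.Coprime m 2 := by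
            have : m % 2 = 1 := by omega
            rw [Nat.coprime_two_right, Nat.odd_iff]
            exact this
          have h1 : m ∣ 2 * (a * n) + 1 := by
            have g1 := Nat.div_add_mod (a * n) m
            have e : 2 * (a * n) + 1 = m * (2 * (a * n / m) + 1) := by
              have : 2 * (a * n) = 2 * (m * (a * n / m)) + 2 * (a * n % m) := by omega
              rw [this, hx]
              have e2 : m * (2 * (a * n / m) + 1) = 2 * (m * (a * n / m)) + m := by ring
              rw [e2]
              omega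
            rw [e]
            exact dvd_mul_right _ _
          have hco : Nat.Coprime m n := by
            have : Nat.Coprime n (2 * (a * n) + 1) := by
              have e : 2 * (a * n) + 1 = 1 + 2 * a * n := by ring
              rw [e]
              simp
            exact (this.coprime_dvd_right h1).symm
          have h2 : m ∣ 2 * ((3 * a - b) * n) := by
            have e : 2 * ((3 * a - b) * n) = 3 * (2 * (a * n) + 1) - (2 * (b * n) + 3) := by
              rw [Nat.sub_mul]
              have : 3 * a * n = 3 * (a * n) := by ring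
              omega
            rw [e]
            exact Nat.dvd_sub (h1.mul_left 3) c2
          have h3 : m ∣ 3 * a - b := hco.dvd_of_dvd_mul_right (hodd.dvd_of_dvd_mul_left h2)
          rw [if_pos h3]
          omega
    · rw [if_neg c2]
      omega

theorem fac_ind {p x B : ℕ} (hp : p.Prime) (hx : 0 < x) (hB : x < B) :
    x.factorization p = ∑ i ∈ Ico 1 B, if p ^ i ∣ x then 1 else 0 := by
  rw [Nat.factorization_eq_card_pow_dvd_of_lt hp hx (b := B)]
  · rw [Finset.card_filter]
  · exact (Nat.lt_pow_self hp.one_lt).trans_le (Nat.pow_le_pow_right hp.pos hB.le)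

theorem fac_fact {p x B : ℕ} (hp : p.Prime) (hB : x < B) :
    (x.factorial).factorization p = ∑ i ∈ Ico 1 B, x / p ^ i :=
  Nat.factorization_factorial hp ((Nat.log_le_self p x).trans_lt hB)

theorem main_dvd {a b n : ℕ} (hab : b < a) :
    (2 * (b * n) + 1) * (2 * (b * n) + 3) *
        ((2 * (b * n)).factorial * (a * n).factorial * (a * n - b * n).factorial) ∣
      3 * (a - b) * (3 * a - b) * ((2 * (a * n)).factorial * (b * n).factorial) := by
  have hNA : b * n ≤ a * n := Nat.mul_le_mul_right n hab.le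
  have h1 : 3 * (a - b) ≠ 0 := by omega
  have h2 : 3 * a - b ≠ 0 := by omega
  have h3 : 2 * (b * n) + 1 ≠ 0 := by omega
  have h4 : 2 * (b * n) + 3 ≠ 0 := by omega
  have f : ∀ x : ℕ, x.factorial ≠ 0 := Nat.factorial_ne_zero
  rw [← Nat.factorization_prime_le_iff_dvd
    (mul_ne_zero (mul_ne_zero h3 h4) (mul_ne_zero (mul_ne_zero (f _) (f _)) (f _)))
    (mul_ne_zero (mul_ne_zero h1 h2) (mul_ne_zero (f _) (f _)))]
  intro p hp
  rw [Nat.factorization_mul (mul_ne_zero h3 h4) (mul_ne_zero (mul_ne_zero (f _) (f _)) (f _)),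
    Nat.factorization_mul h3 h4, Nat.factorization_mul (mul_ne_zero (f _) (f _)) (f _),
    Nat.factorization_mul (f _) (f _), Nat.factorization_mul (mul_ne_zero h1 h2)
      (mul_ne_zero (f _) (f _)), Nat.factorization_mul h1 h2, Nat.factorization_mul (f _) (f _)]
  simp only [Finsupp.coe_add, Pi.add_apply]
  obtain ⟨B, hB⟩ : ∃ B, B = 2 * (a * n) + 2 * (b * n) + 3 * a + 4 := ⟨_, rfl⟩
  rw [fac_ind hp (Nat.pos_of_ne_zero h3) (B := B) (by omega),
    fac_ind hp (Nat.pos_of_ne_zero h4) (B := B) (by omega),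
    fac_ind hp (Nat.pos_of_ne_zero h1) (B := B) (by omega),
    fac_ind hp (Nat.pos_of_ne_zero h2) (B := B) (by omega),
    fac_fact hp (B := B) (x := 2 * (b * n)) (by omega),
    fac_fact hp (B := B) (x := a * n) (by omega),
    fac_fact hp (B := B) (x := a * n - b * n) (by omega),
    fac_fact hp (B := B) (x := 2 * (a * n)) (by omega),
    fac_fact hp (B := B) (x := b * n) (by omega)]
  simp only [← Finset.sum_add_distrib]
  refine Finset.sum_le_sum fun i hi => ?_
  rw [Finset.mem_Ico] at hi
  have hm : 2 ≤ p ^ i := by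
    calc 2 ≤ p := hp.two_le
      _ = p ^ 1 := (pow_one p).symm
      _ ≤ p ^ i := Nat.pow_le_pow_right hp.pos hi.1
  exact key (n := n) hab hm

/-- Q1. -/
theorem result : ∀ a b n : ℕ, 0 < b → b < a → 0 < n →
    (2 * b * n + 1) * (2 * b * n + 3) * (2 * b * n).choose (b * n) ∣
      3 * (a - b) * (3 * a - b) * (2 * a * n).choose (a * n) * (a * n).choose (b * n) := by
  intro a b n _ hab _
  have hNA : b * n ≤ a * n := Nat.mul_le_mul_right n hab.le
  have h := main_dvd (n := n) hab
  have e1 := Nat.choose_mul_factorial_mul_factorial (n := 2 * (b * n)) (k := b * n) (by omega)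
  have e2 := Nat.choose_mul_factorial_mul_factorial (n := 2 * (a * n)) (k := a * n) (by omega)
  have e3 := Nat.choose_mul_factorial_mul_factorial hNA
  have s1 : 2 * (b * n) - b * n = b * n := by omega
  have s2 : 2 * (a * n) - a * n = a * n := by omega
  rw [s1] at e1
  rw [s2] at e2
  rw [show 2 * b * n = 2 * (b * n) by ring, show 2 * a * n = 2 * (a * n) by ring]
  set F := (b * n).factorial * (b * n).factorial * (a * n).factorial * (a * n - b * n).factorial
    with hF
  have hFpos : 0 < F := by
    rw [hF]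
    exact Nat.mul_pos (Nat.mul_pos (Nat.mul_pos (Nat.factorial_pos _) (Nat.factorial_pos _))
      (Nat.factorial_pos _)) (Nat.factorial_pos _)
  refine Nat.dvd_of_mul_dvd_mul_right hFpos ?_
  have l1 : (2 * (b * n) + 1) * (2 * (b * n) + 3) * (2 * (b * n)).choose (b * n) * F =
      (2 * (b * n) + 1) * (2 * (b * n) + 3) *
        ((2 * (b * n)).factorial * (a * n).factorial * (a * n - b * n).factorial) := by
    rw [← e1, hF]
    ring
  have l2 : 3 * (a - b) * (3 * a - b) * (2 * (a * n)).choose (a * n) * (a * n).choose (b * n) * F =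
      3 * (a - b) * (3 * a - b) * ((2 * (a * n)).factorial * (b * n).factorial) := by
    rw [← e2, hF]
    have : (2 * (a * n)).choose (a * n) * (a * n).choose (b * n) * ((b * n).factorial *
        (b * n).factorial * (a * n).factorial * (a * n - b * n).factorial) =
        (2 * (a * n)).choose (a * n) * (a * n).factorial * ((a * n).choose (b * n) *
        (b * n).factorial * (a * n - b * n).factorial) * (b * n).factorial := by ring
    rw [e3] at this
    calc 3 * (a - b) * (3 * a - b) * (2 * (a * n)).choose (a * n) * (a * n).choose (b * n) *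
        ((b * n).factorial * (b * n).factorial * (a * n).factorial * (a * n - b * n).factorial)
        = 3 * (a - b) * (3 * a - b) * ((2 * (a * n)).choose (a * n) * (a * n).choose (b * n) *
        ((b * n).factorial * (b * n).factorial * (a * n).factorial *
        (a * n - b * n).factorial)) := by ring
      _ = _ := by rw [this]
  rw [l1, l2]
  exact h

end Pool.Agent.Q281.Known.CentralBinomials
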